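import Pool.Agent.Helper82.CN.St

/-!
# Project CN, module FMB: first moment bound
-/

set_option autoImplicit false

namespace Pool.Agent.Helper62.CN

open Finset Pool.Agent.Helper82.CN

/-- product formula -/
private lemma EE_prod_FMB {ι : Type} [Fintype ι] [DecidableEq ι] (p : ℝ) (g : ι → Bool → ℝ) :
    EE p (fun ω : ι → Bool => ∏ i, g i (ω i)) = ∏ i, ∑ b : Bool, bw p b * g i b := by
  unfold EE
  have h := (Finset.prod_univ_sum (fun _ : ι => (univ : Finset Bool))
    (fun i b => bw p b * g i b)).symm
  simp only [Fintype.piFinset_univ] at h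
  rw [← h]
  exact Finset.sum_congr rfl fun ω _ => by rw [← Finset.prod_mul_distrib]

open Classical in
/-- probability that all bits in `S` vanish -/
private lemma EE_vanish_FMB {ι : Type} [Fintype ι] [DecidableEq ι] (p : ℝ) (S : Finset ι) :
    EE p (fun ω : ι → Bool => if (∀ i ∈ S, ω i = false) then (1 : ℝ) else 0) =
      (1 - p) ^ S.card := by
  have h1 : (fun ω : ι → Bool => if (∀ i ∈ S, ω i = false) then (1 : ℝ) else 0) =
      fun ω => ∏ i, (fun (i : ι) (b : Bool) => if i ∈ S ∧ b = true then (0 : ℝ) else 1) i (ω i) := by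
    funext ω
    split_ifs with h
    · refine (Finset.prod_eq_one fun i _ => ?_).symm
      show (if i ∈ S ∧ ω i = true then (0 : ℝ) else 1) = 1
      rw [if_neg]
      rintro ⟨h2, h3⟩
      rw [h i h2] at h3
      exact Bool.false_ne_true h3
    · push Not at h
      obtain ⟨i, hi, hi2⟩ := h
      refine (Finset.prod_eq_zero (Finset.mem_univ i) ?_).symm
      show (if i ∈ S ∧ ω i = true then (0 : ℝ) else 1) = 0
      rw [if_pos ⟨hi, by simpa using hi2⟩]
  rw [h1]
  refine (EE_prod_FMB p (fun (i : ι) (b : Bool) => if i ∈ S ∧ b = true then (0 : ℝ) else 1)).trans ?_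
  have h2 : ∀ i : ι, ∑ b : Bool, bw p b * (if i ∈ S ∧ b = true then (0 : ℝ) else 1) =
      if i ∈ S then 1 - p else 1 := by
    intro i
    by_cases hi : i ∈ S <;> simp [hi, bw]
  rw [Finset.prod_congr rfl fun i _ => h2 i, Finset.prod_ite_mem, Finset.univ_inter,
    Finset.prod_const]

/-- a surjective proper colouring -/
private lemma surj_FMB {n k : ℕ} (hkn : k ≤ n) (G : SimpleGraph (Fin n)) (hG : G.Colorable k) :
    ∃ c : Fin n → Fin k, Function.Surjective c ∧ ∀ u v, G.Adj u v → c u ≠ c v := by
  classical
  obtain ⟨c0⟩ := hG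
  let P : Finset (Fin n → Fin k) := univ.filter fun c => ∀ u v, G.Adj u v → c u ≠ c v
  have hP : P.Nonempty := ⟨c0, by
    simp only [P, Finset.mem_filter, Finset.mem_univ, true_and]
    intro u v huv
    exact c0.valid huv⟩
  obtain ⟨c, hc, hmax⟩ := P.exists_max_image (fun c => (univ.image c).card) hP
  have hc' : ∀ u v, G.Adj u v → c u ≠ c v := (Finset.mem_filter.1 hc).2
  refine ⟨c, ?_, hc'⟩
  by_contra hs
  unfold Function.Surjective at hs
  push Not at hs
  obtain ⟨j, hj⟩ := hs
  have hlt : (univ.image c).card < (univ : Finset (Fin n)).card := by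
    have h1 : (univ.image c).card < k := by
      have h2 : univ.image c ⊆ univ.erase j := by
        intro x hx
        obtain ⟨y, -, rfl⟩ := Finset.mem_image.1 hx
        exact Finset.mem_erase.2 ⟨hj y, Finset.mem_univ _⟩
      have h3 := Finset.card_le_card h2
      rw [Finset.card_erase_of_mem (Finset.mem_univ _), Finset.card_univ, Fintype.card_fin] at h3
      have : 0 < k := j.pos
      omega
    rw [Finset.card_univ, Fintype.card_fin]
    omega
  obtain ⟨u, -, v, -, huv, hcuv⟩ := Finset.exists_ne_map_eq_of_card_lt_of_maps_to hlt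
    (f := c) (fun a _ => Finset.mem_image_of_mem _ (Finset.mem_univ _))
  have hd : Function.update c u j ∈ P := by
    simp only [P, Finset.mem_filter, Finset.mem_univ, true_and]
    intro x y hxy
    by_cases hx : x = u
    · subst hx
      have hy : y ≠ x := hxy.ne'
      rw [Function.update_self, Function.update_of_ne hy]
      exact (hj y).symm
    · by_cases hy : y = u
      · subst hy
        rw [Function.update_self, Function.update_of_ne hx]
        exact hj x
      · rw [Function.update_of_ne hx, Function.update_of_ne hy]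
        exact hc' x y hxy
  have h4 := hmax _ hd
  have h5 : insert j (univ.image c) ⊆ univ.image (Function.update c u j) := by
    intro x hx
    rcases Finset.mem_insert.1 hx with rfl | hx
    · exact Finset.mem_image.2 ⟨u, Finset.mem_univ _, Function.update_self _ _ _⟩
    · obtain ⟨y, -, rfl⟩ := Finset.mem_image.1 hx
      by_cases hy : y = u
      · subst hy
        refine Finset.mem_image.2 ⟨v, Finset.mem_univ _, ?_⟩
        rw [Function.update_of_ne huv.symm, hcuv]
      · exact Finset.mem_image.2 ⟨y, Finset.mem_univ _, Function.update_of_ne hy _ _⟩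
  have h6 : j ∉ univ.image c := by
    intro h
    obtain ⟨y, -, hy⟩ := Finset.mem_image.1 h
    exact hj y hy
  have h7 := Finset.card_le_card h5
  rw [Finset.card_insert_of_notMem h6] at h7
  have h8 : (univ.image (Function.update c u j)).card ≤ (univ.image c).card := h4
  omega

open Classical in
/-- the proper colourings -/
private noncomputable def pc_FMB {n : ℕ} (k : ℕ) (G : SimpleGraph (Fin n)) :
    Finset (Fin n → Fin k) :=
  univ.filter fun c => ∀ u v, G.Adj u v → c u ≠ c v

private lemma card_pc_FMB {n k : ℕ} (hkn : k ≤ n) (G : SimpleGraph (Fin n)) (hG : G.Colorable k) :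
    k.factorial ≤ (pc_FMB k G).card := by
  classical
  obtain ⟨c, hs, hc⟩ := surj_FMB hkn G hG
  have h1 : Function.Injective (fun σ : Equiv.Perm (Fin k) => (fun v => σ (c v) : Fin n → Fin k)) := by
    intro σ τ h
    ext x
    obtain ⟨y, rfl⟩ := hs x
    exact congrArg Fin.val (congrFun h y)
  have h2 : (univ : Finset (Equiv.Perm (Fin k))).image
      (fun σ : Equiv.Perm (Fin k) => (fun v => σ (c v) : Fin n → Fin k)) ⊆ pc_FMB k G := by
    intro x hx
    obtain ⟨σ, -, rfl⟩ := Finset.mem_image.1 hx
    unfold pc_FMB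
    rw [Finset.mem_filter]
    refine ⟨Finset.mem_univ _, fun u v huv h => hc u v huv (σ.injective h)⟩
  have h3 := Finset.card_le_card h2
  rw [Finset.card_image_of_injective _ h1, Finset.card_univ, Fintype.card_perm,
    Fintype.card_fin] at h3
  exact h3

open Classical in
/-- monochromatic pairs -/
private noncomputable def mono_FMB {n k : ℕ} (c : Fin n → Fin k) : Finset (Sym2 (Fin n)) :=
  ((univ : Finset (Fin n × Fin n)).filter fun x => x.1 ≠ x.2 ∧ c x.1 = c x.2).image
    fun x => s(x.1, x.2)

private lemma card_mono_FMB {n k : ℕ} (c : Fin n → Fin k) (hk : 1 ≤ k) :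
    ((n : ℝ) ^ 2 / k - n) / 2 ≤ ((mono_FMB c).card : ℝ) := by
  classical
  have hk0 : (0 : ℝ) < k := by exact_mod_cast hk
  -- ordered pairs
  have h1 : ((univ : Finset (Fin n × Fin n)).filter fun x => x.1 ≠ x.2 ∧ c x.1 = c x.2).card ≤
      2 * (mono_FMB c).card := by
    unfold mono_FMB
    refine (Finset.card_le_mul_card_image (f := fun x : Fin n × Fin n => s(x.1, x.2)) _ 2 ?_)
    intro a _
    induction a using Sym2.ind with
    | _ u v =>
      have h : (((univ : Finset (Fin n × Fin n)).filter fun x => x.1 ≠ x.2 ∧ c x.1 = c x.2).filter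
          fun x => s(x.1, x.2) = s(u, v)) ⊆ {(u, v), (v, u)} := by
        rintro ⟨x, y⟩ hx
        have h2 := (Finset.mem_filter.1 hx).2
        rcases Sym2.eq_iff.1 h2 with ⟨h3, h4⟩ | ⟨h3, h4⟩
        · simp only at h3 h4
          simp [h3, h4]
        · simp only at h3 h4
          simp [h3, h4]
      exact (Finset.card_le_card h).trans Finset.card_le_two
  -- sizes
  let m : Fin k → ℕ := fun i => ((univ : Finset (Fin n)).filter fun v => c v = i).card
  have h2 : ∑ i, m i = n := by
    have := Finset.card_eq_sum_card_fiberwise (f := c) (s := (univ : Finset (Fin n)))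
      (t := (univ : Finset (Fin k))) (fun x _ => Finset.mem_univ _)
    rw [Finset.card_univ, Fintype.card_fin] at this
    exact this.symm
  have h3 : ((univ : Finset (Fin n × Fin n)).filter fun x => c x.1 = c x.2).card =
      ∑ i, m i * m i := by
    have h4 := Finset.card_eq_sum_card_fiberwise (f := fun x : Fin n × Fin n => c x.1)
      (s := (univ : Finset (Fin n × Fin n)).filter fun x => c x.1 = c x.2)
      (t := (univ : Finset (Fin k))) (fun x _ => Finset.mem_univ _)
    rw [h4]
    refine Finset.sum_congr rfl fun i _ => ?_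
    have h5 : (((univ : Finset (Fin n × Fin n)).filter fun x => c x.1 = c x.2).filter
        fun x => c x.1 = i) = ((univ : Finset (Fin n)).filter fun v => c v = i) ×ˢ
          ((univ : Finset (Fin n)).filter fun v => c v = i) := by
      ext ⟨x, y⟩
      simp only [Finset.mem_filter, Finset.mem_univ, true_and, Finset.mem_product]
      constructor
      · rintro ⟨h, h'⟩
        exact ⟨h', h ▸ h'⟩
      · rintro ⟨h, h'⟩
        exact ⟨h.trans h'.symm, h⟩
    rw [h5, Finset.card_product]
  have h4 : ((univ : Finset (Fin n × Fin n)).filter fun x => c x.1 = c x.2).card ≤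
      ((univ : Finset (Fin n × Fin n)).filter fun x => x.1 ≠ x.2 ∧ c x.1 = c x.2).card + n := by
    have h5 : ((univ : Finset (Fin n × Fin n)).filter fun x => c x.1 = c x.2) ⊆
        ((univ : Finset (Fin n × Fin n)).filter fun x => x.1 ≠ x.2 ∧ c x.1 = c x.2) ∪
          (univ : Finset (Fin n)).image fun v => (v, v) := by
      rintro ⟨x, y⟩ hx
      have hx' : c x = c y := (Finset.mem_filter.1 hx).2
      by_cases hxy : x = y
      · subst hxy
        exact Finset.mem_union_right _ (Finset.mem_image.2 ⟨x, Finset.mem_univ _, rfl⟩)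
      · exact Finset.mem_union_left _ (Finset.mem_filter.2 ⟨Finset.mem_univ _, hxy, hx'⟩)
    refine (Finset.card_le_card h5).trans ((Finset.card_union_le _ _).trans ?_)
    have h6 : ((univ : Finset (Fin n)).image fun v => (v, v)).card ≤ n := by
      refine Finset.card_image_le.trans ?_
      rw [Finset.card_univ, Fintype.card_fin]
    omega
  have h5 : (n : ℝ) ^ 2 ≤ k * ∑ i, (m i : ℝ) ^ 2 := by
    have h6 := sq_sum_le_card_mul_sum_sq (s := (univ : Finset (Fin k))) (f := fun i => (m i : ℝ))
    rw [Finset.card_univ, Fintype.card_fin] at h6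
    have h7 : ∑ i, (m i : ℝ) = n := by exact_mod_cast h2
    rw [h7] at h6
    exact h6
  have h6 : ∑ i, (m i : ℝ) ^ 2 ≤ 2 * ((mono_FMB c).card : ℝ) + n := by
    have h7 : ∑ i, m i * m i ≤ 2 * (mono_FMB c).card + n := by
      rw [← h3]
      omega
    have h8 : ((∑ i, m i * m i : ℕ) : ℝ) ≤ ((2 * (mono_FMB c).card + n : ℕ) : ℝ) := by
      exact_mod_cast h7
    push_cast at h8
    refine le_trans (le_of_eq ?_) h8
    exact Finset.sum_congr rfl fun i _ => sq _
  have h7 : (n : ℝ) ^ 2 / k ≤ 2 * ((mono_FMB c).card : ℝ) + n := by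
    rw [div_le_iff₀ hk0]
    have := mul_le_mul_of_nonneg_left h6 hk0.le
    linarith
  linarith

theorem tFMB : StFmb := by
  classical
  intro p n k hp0 hp1 hk hkn
  have hq0 : 0 < 1 - p := by linarith
  have hq1 : 1 - p ≤ 1 := by linarith
  have hf : (0 : ℝ) < k.factorial := by exact_mod_cast k.factorial_pos
  -- pointwise
  have h1 : ∀ ω : Sym2 (Fin n) → Bool,
      (if ch (gr ω) ≤ k then (1 : ℝ) else 0) * k.factorial ≤
        ∑ c : Fin n → Fin k, if (∀ e ∈ mono_FMB c, ω e = false) then (1 : ℝ) else 0 := by
    intro ω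
    split_ifs with h
    · have hcol : (gr ω).Colorable k := by
        have h2 : (gr ω).chromaticNumber.toNat ≤ k := by
          unfold ch at h
          exact_mod_cast h
        have h3 : (gr ω).chromaticNumber ≠ ⊤ :=
          SimpleGraph.chromaticNumber_ne_top_iff_exists.2 ⟨n, by
            simpa using (gr ω).colorable_of_fintype⟩
        have h4 := SimpleGraph.colorable_chromaticNumber_of_fintype (gr ω)
        exact h4.mono h2
      have h5 := card_pc_FMB hkn (gr ω) hcol
      have h6 : ∑ c : Fin n → Fin k, (if (∀ e ∈ mono_FMB c, ω e = false) then (1 : ℝ) else 0) =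
          ((pc_FMB k (gr ω)).card : ℝ) := by
        rw [Finset.sum_boole]
        congr 2
        unfold pc_FMB
        refine Finset.filter_congr fun c _ => ?_
        constructor
        · intro h u v huv hcuv
          have h7 : s(u, v) ∈ mono_FMB c :=
            Finset.mem_image.2 ⟨(u, v), Finset.mem_filter.2 ⟨Finset.mem_univ _, huv.1, hcuv⟩, rfl⟩
          have h8 := h _ h7
          rw [huv.2] at h8
          exact Bool.false_ne_true h8.symm
        · intro h e he
          obtain ⟨⟨u, v⟩, hx, rfl⟩ := Finset.mem_image.1 he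
          obtain ⟨-, h7, h8⟩ := Finset.mem_filter.1 hx
          by_contra h9
          exact h u v ⟨h7, by simpa using h9⟩ h8
      rw [h6, one_mul]
      exact_mod_cast h5
    · rw [zero_mul]
      exact Finset.sum_nonneg fun c _ => by split_ifs <;> norm_num
  have h2 := EE_mono hp0 hp1.le h1
  rw [EE_mul_right, EE_sum] at h2
  have h3 : ∀ c : Fin n → Fin k,
      EE p (fun ω : Sym2 (Fin n) → Bool =>
        if (∀ e ∈ mono_FMB c, ω e = false) then (1 : ℝ) else 0) ≤
        (1 - p) ^ (((n : ℝ) ^ 2 / k - n) / 2) := by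
    intro c
    have h4 := EE_vanish_FMB p (mono_FMB c)
    refine (le_of_eq ?_).trans (Real.rpow_le_rpow_of_exponent_ge hq0 hq1 (card_mono_FMB c hk))
    rw [Real.rpow_natCast, ← h4]
  have h4 : ∑ c : Fin n → Fin k, EE p (fun ω : Sym2 (Fin n) → Bool =>
        if (∀ e ∈ mono_FMB c, ω e = false) then (1 : ℝ) else 0) ≤
        (k : ℝ) ^ n * (1 - p) ^ (((n : ℝ) ^ 2 / k - n) / 2) := by
    refine (Finset.sum_le_sum fun c _ => h3 c).trans (le_of_eq ?_)
    rw [Finset.sum_const, nsmul_eq_mul, Finset.card_univ, Fintype.card_fun, Fintype.card_fin,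
      Fintype.card_fin]
    push_cast
    rfl
  rw [div_mul_eq_mul_div, le_div_iff₀ hf]
  exact h2.trans h4

end Pool.Agent.Helper62.CN
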